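import Pool.Agent.Q6.XK.Crit
import Pool.Agent.Y687.JQ.Fin

/-!
# Twists of `X_0(49)` over multiquadratic fields: square classes and the joint proportion

Adapted from `Pool.Agent.Y687.JQ.Fld` and `Pool.Agent.Y687.JQ.Mat` (twists of `X_0(14)`).
-/

set_option autoImplicit false

open Finset

namespace Pool.Agent.Q6.XM

open Pool.Agent.Y698 Pool.Agent.Y698.SG
open Pool.Agent.Q6.XK
open Pool.Agent.Y703.CQ (Cl Gd Ok c2)
open Pool.Agent.Y687.JQ (GdJ OkW S_JDEN)

/-! ## Square classes -/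

theorem sqf_unique_nat {D D' k k' : ℕ} (hD : Squarefree D) (hD' : Squarefree D') (hk : k ≠ 0)
    (hk' : k' ≠ 0) (h : D * k ^ 2 = D' * k' ^ 2) : D = D' := by
  refine Nat.eq_of_factorization_eq hD.ne_zero hD'.ne_zero fun p => ?_
  have h1 : (D * k ^ 2).factorization p = (D' * k' ^ 2).factorization p := by rw [h]
  rw [Nat.factorization_mul hD.ne_zero (pow_ne_zero 2 hk),
    Nat.factorization_mul hD'.ne_zero (pow_ne_zero 2 hk'), Finsupp.add_apply, Finsupp.add_apply,
    Nat.factorization_pow, Nat.factorization_pow, Finsupp.smul_apply, Finsupp.smul_apply,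
    smul_eq_mul, smul_eq_mul] at h1
  have h2 := hD.natFactorization_le_one p
  have h3 := hD'.natFactorization_le_one p
  omega

theorem sqf_unique {D D' : ℕ} {k k' : ℤ} (hD : Squarefree D) (hD' : Squarefree D') (hk : k ≠ 0)
    (hk' : k' ≠ 0) (h : (D : ℤ) * k ^ 2 = D' * k' ^ 2) : D = D' := by
  have h1 : D * k.natAbs ^ 2 = D' * k'.natAbs ^ 2 := by
    have h2 := congrArg Int.natAbs h
    rw [Int.natAbs_mul, Int.natAbs_mul, Int.natAbs_pow, Int.natAbs_pow, Int.natAbs_natCast,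
      Int.natAbs_natCast] at h2
    exact h2
  exact sqf_unique_nat hD hD' (Int.natAbs_ne_zero.2 hk) (Int.natAbs_ne_zero.2 hk') h1

theorem isSquare_of_mul {x y z : ℤ} (hy : y ≠ 0) (h : x * y ^ 2 = z ^ 2) : IsSquare x := by
  have h1 : y ^ 2 ∣ z ^ 2 := ⟨x, by rw [← h]; ring⟩
  obtain ⟨w, rfl⟩ := (Int.pow_dvd_pow_iff (by norm_num)).1 h1
  refine ⟨w, ?_⟩
  have h2 : y ^ 2 ≠ 0 := pow_ne_zero 2 hy
  apply mul_right_cancel₀ h2
  rw [h]
  ring

theorem prod_symmDiff {α : Type} [DecidableEq α] (g : α → ℤ) (S T : Finset α) :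
    (∏ p ∈ S, g p) * ∏ p ∈ T, g p = (∏ p ∈ symmDiff S T, g p) * (∏ p ∈ S ∩ T, g p) ^ 2 := by
  have h1 : symmDiff S T = (S \ T) ∪ (T \ S) := rfl
  have hd : Disjoint (S \ T) (T \ S) := by
    rw [Finset.disjoint_left]
    intro a ha hb
    exact (Finset.mem_sdiff.1 hb).2 (Finset.mem_sdiff.1 ha).1
  rw [h1, Finset.prod_union hd, ← Finset.prod_inter_mul_prod_sdiff S T,
    ← Finset.prod_inter_mul_prod_sdiff T S, Finset.inter_comm T S]
  ring

/-- `d_1, …, d_n` are independent modulo squares -/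
def Ind {n : ℕ} (d : Fin n → ℤ) : Prop :=
  ∀ T : Finset (Fin n), T.Nonempty → ¬ IsSquare (∏ i ∈ T, d i)

/-! ## The class -/

/-- the primes of the class -/
def Pc (p : ℕ) : Prop := p.Prime ∧ ((p % 8 = 1 ∧ (p % 7 = 1 ∨ p % 7 = 2 ∨ p % 7 = 4)) ∨
  (p % 8 = 5 ∧ (p % 7 = 3 ∨ p % 7 = 5 ∨ p % 7 = 6)))

/-- sets of primes of the class -/
def CL (S : Finset ℕ) : Prop := ∀ p ∈ S, Pc p

/-- the product -/
def DD (S : Finset ℕ) : ℕ := ∏ p ∈ S, p

theorem DD_cast (S : Finset ℕ) : (DD S : ℤ) = ∏ p ∈ S, (p : ℤ) := by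
  unfold DD
  push_cast
  rfl

theorem DD_mul (S T : Finset ℕ) : (DD S : ℤ) * DD T = DD (symmDiff S T) * (DD (S ∩ T) : ℤ) ^ 2 := by
  simp only [DD_cast]
  exact prod_symmDiff (fun p : ℕ => (p : ℤ)) S T

theorem CL.prime {S : Finset ℕ} (h : CL S) : ∀ p ∈ S, p.Prime := fun p hp => (h p hp).1

theorem CL.symmDiff {S T : Finset ℕ} (hS : CL S) (hT : CL T) : CL (symmDiff S T) := by
  intro p hp
  rcases Finset.mem_symmDiff.1 hp with h | h
  · exact hS p h.1
  · exact hT p h.1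

theorem CL.sqf {S : Finset ℕ} (h : CL S) : Squarefree (DD S) := by
  refine Finset.squarefree_prod_of_pairwise_isCoprime (fun p hp q hq hpq => ?_)
    fun p hp => (h.prime p hp).squarefree
  show IsRelPrime p q
  rw [← Nat.coprime_iff_isRelPrime]
  exact (Nat.coprime_primes (h.prime p hp) (h.prime q hq)).mpr hpq

theorem CL.pf {S : Finset ℕ} (h : CL S) : (DD S).primeFactors = S := Nat.primeFactors_prod h.prime

theorem CL.base {S : Finset ℕ} (h : CL S) : Base (DD S) := by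
  refine ⟨h.sqf, fun p hp hd => ?_⟩
  have h1 : p ∈ S := by
    rw [← h.pf]
    exact Nat.mem_primeFactors.2 ⟨hp, hd, h.sqf.ne_zero⟩
  rcases (h p h1).2 with h2 | h2 <;> omega

theorem DD_ne {S : Finset ℕ} (h : CL S) : (DD S : ℤ) ≠ 0 := by exact_mod_cast h.sqf.ne_zero

theorem pf_CL {D : ℕ} (h1 : Squarefree D) (h2 : CL D.primeFactors) : DD D.primeFactors = D :=
  Nat.prod_primeFactors_of_squarefree h1

theorem inter_ne {S T : Finset ℕ} (hS : CL S) : (DD (S ∩ T) : ℤ) ≠ 0 :=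
  DD_ne fun p hp => hS p (Finset.mem_inter.1 hp).1

/-- no obstruction, in terms of the system of equations -/
theorem free_iff {S : Finset ℕ} (hS : CL S) : (∀ d, ¬ Obs (DD S) d) ↔ Gd n4 S := by
  classical
  have key : ∀ p ∈ (DD S).primeFactors, (IsSquare (-7 : ZMod p) ↔ p % 8 = 1) := by
    intro p hp
    rw [hS.pf] at hp
    have h4 : p % 4 = 1 := by
      rcases (hS p hp).2 with h2 | h2 <;> omega
    rw [seven_iff (hS p hp).1 h4]
    rcases (hS p hp).2 with h1 | h1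
    · exact ⟨fun _ => h1.1, fun _ => mod7.1 h1.2⟩
    · constructor
      · intro h
        exact absurd h (mod7.2 h1.2)
      · intro h
        omega
  have e1 : PP (DD S) = SP (DD S) := by
    unfold PP SP
    exact Finset.filter_congr key
  have e2 : QQ (DD S) = IP (DD S) := by
    unfold QQ IP
    exact Finset.filter_congr fun p hp => not_congr (key p hp)
  rw [← crit hS.base, e1, e2, gd_iff, hS.pf]

/-- good up to squares -/
def Gz (z : ℤ) : Prop := ∃ (D : ℕ) (k : ℤ), Base D ∧ (∀ d, ¬ Obs D d) ∧ k ≠ 0 ∧ z = D * k ^ 2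

/-- in the class up to squares -/
def Cz (z : ℤ) : Prop := ∃ (S : Finset ℕ) (k : ℤ), CL S ∧ k ≠ 0 ∧ z = DD S * k ^ 2

/-- good over the field -/
def GO {n : ℕ} (d : Fin n → ℤ) (M : ℤ) : Prop := ∀ T : Finset (Fin n), Gz (M * ∏ i ∈ T, d i)

theorem Cz.mul {a b : ℤ} (ha : Cz a) (hb : Cz b) : Cz (a * b) := by
  obtain ⟨S, k, hS, hk, rfl⟩ := ha
  obtain ⟨T, m, hT, hm, rfl⟩ := hb
  refine ⟨symmDiff S T, DD (S ∩ T) * (k * m), hS.symmDiff hT,
    mul_ne_zero (inter_ne hS) (mul_ne_zero hk hm), ?_⟩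
  linear_combination (k ^ 2 * m ^ 2) * DD_mul S T

theorem Cz_one : Cz 1 := ⟨∅, 1, by intro p hp; simp at hp, one_ne_zero, by unfold DD; simp⟩

/-- the square classes of the products -/
theorem exists_U {n : ℕ} {d : Fin n → ℤ} (hd : Ind d) (ha : ∀ i, Cz (d i)) {N : ℤ} (hN : Cz N) :
    ∃ U : Finset (Fin n) → Finset ℕ, Function.Injective U ∧ ∀ T, CL (U T) ∧
      ∃ k : ℤ, k ≠ 0 ∧ N * ∏ i ∈ T, d i = DD (U T) * k ^ 2 := by
  classical
  have h1 : ∀ T : Finset (Fin n), Cz (N * ∏ i ∈ T, d i) := by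
    intro T
    refine hN.mul ?_
    induction T using Finset.induction_on with
    | empty => rw [Finset.prod_empty]; exact Cz_one
    | insert a T haT ih => rw [Finset.prod_insert haT]; exact (ha a).mul ih
  choose U k hU hk he using h1
  refine ⟨U, fun T T' hTT => ?_, fun T => ⟨hU T, k T, hk T, he T⟩⟩
  by_contra hne
  have hN0 : N ≠ 0 := by
    obtain ⟨S, k, hS, hk, rfl⟩ := hN
    exact mul_ne_zero (DD_ne hS) (pow_ne_zero 2 hk)
  have hne' : (symmDiff T T').Nonempty := by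
    rw [Finset.nonempty_iff_ne_empty]
    intro h
    exact hne (symmDiff_eq_bot.1 h)
  have h2 := he T
  have h3 := he T'
  rw [← hTT] at h3
  refine hd _ hne' (isSquare_of_mul (y := N * ∏ i ∈ T ∩ T', d i) (z := DD (U T) * k T * k T')
    ?_ ?_)
  · refine mul_ne_zero hN0 (Finset.prod_ne_zero_iff.2 fun i hi => ?_)
    have h0 : ∏ i ∈ T, d i ≠ 0 := by
      intro h
      rw [h, mul_zero] at h2
      exact mul_ne_zero (DD_ne (hU T)) (pow_ne_zero 2 (hk T)) h2.symm
    exact Finset.prod_ne_zero_iff.1 h0 i (Finset.mem_inter.1 hi).1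
  · have h4 := prod_symmDiff d T T'
    have h5 : (N * ∏ i ∈ T, d i) * (N * ∏ i ∈ T', d i) =
        (DD (U T) * k T ^ 2) * (DD (U T) * k T' ^ 2) := by rw [h2, h3]
    linear_combination h5 - N ^ 2 * h4

/-- the condition over the field in terms of sets of primes -/
theorem GO_iff {n : ℕ} {d : Fin n → ℤ} {N : ℤ} {U : Finset (Fin n) → Finset ℕ}
    (hU : ∀ T, CL (U T) ∧ ∃ k : ℤ, k ≠ 0 ∧ N * ∏ i ∈ T, d i = DD (U T) * k ^ 2) {S : Finset ℕ}
    (hS : CL S) : GO d (N * DD S) ↔ GdJ n4 (univ.image U) S := by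
  classical
  have key : ∀ T, Gz (N * DD S * ∏ i ∈ T, d i) ↔ Gd n4 (symmDiff S (U T)) := by
    intro T
    obtain ⟨hT, k, hk, he⟩ := hU T
    have hST := hS.symmDiff hT
    have hm := DD_mul S (U T)
    set g : ℤ := ((DD (S ∩ U T) : ℕ) : ℤ) with hg
    have hg0 : g ≠ 0 := inter_ne hS
    have hMd : N * DD S * ∏ i ∈ T, d i = DD (symmDiff S (U T)) * (g * k) ^ 2 := by
      linear_combination (k ^ 2) * hm + (DD S : ℤ) * he
    rw [← free_iff hST]
    constructor
    · rintro ⟨D, m, hD, hf, hm0, hDm⟩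
      have h1 : D = DD (symmDiff S (U T)) :=
        sqf_unique hD.1 hST.sqf hm0 (mul_ne_zero hg0 hk) (by rw [← hDm, hMd])
      rw [← h1]
      exact hf
    · intro h
      exact ⟨_, _, hST.base, h, mul_ne_zero hg0 hk, hMd⟩
  unfold GO GdJ
  constructor
  · intro h V hV
    obtain ⟨T, -, rfl⟩ := Finset.mem_image.1 hV
    exact (key T).1 (h T)
  · intro h T
    exact (key T).2 (h _ (Finset.mem_image_of_mem U (Finset.mem_univ T)))

theorem fam_CL {D : ℕ} (h : Fam D) : CL D.primeFactors := by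
  intro p hp
  obtain ⟨k1, k2, -⟩ := Nat.mem_primeFactors.1 hp
  exact ⟨k1, h.2.2 p k1 k2⟩

theorem okW {n : ℕ} {U : Finset (Fin n) → Finset ℕ} (hU : ∀ T, CL (U T)) :
    OkW ((univ.image U).biUnion id) (univ.image U) := by
  refine ⟨fun u hu => ?_, fun V hV => Finset.subset_biUnion_of_mem id hV⟩
  obtain ⟨V, hV, huV⟩ := Finset.mem_biUnion.1 hu
  obtain ⟨T, -, rfl⟩ := Finset.mem_image.1 hV
  have h1 := hU T u huV
  refine ⟨h1.1, ?_, ?_⟩
  · rintro rfl
    rcases h1.2 with h | h <;> omega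
  · rintro rfl
    rcases h1.2 with h | h <;> omega

open Classical in
/-- **the proportion over a field** -/
theorem prop_field {n : ℕ} {d : Fin n → ℤ} (hd : Ind d) (ha : ∀ i, Cz (d i))
    {N : ℤ} (hN : Cz N) :
    Filter.Tendsto (fun X : ℕ =>
      (((Icc 1 X).filter fun D : ℕ => Fam D ∧ GO d (N * D)).card : ℝ) /
      (((Icc 1 X).filter fun D : ℕ => Fam D).card : ℝ))
      Filter.atTop (nhds (c2 ^ 2 ^ n)) := by
  obtain ⟨U, hinj, hU⟩ := exists_U hd ha hN
  have hok : Ok {5} {0} := ⟨Or.inl rfl, Or.inl (by simp)⟩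
  have hcard : (univ.image U).card = 2 ^ n := by
    rw [Finset.card_image_of_injective _ hinj, Finset.card_univ, Fintype.card_finset,
      Fintype.card_fin]
  have h := Pool.Agent.Y687.JQ.t_JDEN {5} {0} n4 _ _ hok (okW fun T => (hU T).1)
  rw [hcard] at h
  refine h.congr fun X => ?_
  have e1 : ((Icc 1 X).filter fun D : ℕ => Fam D ∧ GO d (N * D)) =
      (Icc 1 X).filter fun D => Squarefree D ∧ Cl {5} {0} D.primeFactors ∧
        GdJ n4 (univ.image U) D.primeFactors := by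
    refine Finset.filter_congr fun D hD => ?_
    rw [← and_assoc, ← fam_iff]
    refine and_congr_right fun hA => ?_
    have h1 := GO_iff hU (fam_CL hA)
    rw [pf_CL hA.1 (fam_CL hA)] at h1
    exact h1
  have e2 : ((Icc 1 X).filter fun D : ℕ => Fam D) =
      (Icc 1 X).filter fun D => Squarefree D ∧ Cl {5} {0} D.primeFactors :=
    Finset.filter_congr fun D _ => fam_iff D
  rw [e1, e2]

theorem fam_infinite : {D : ℕ | 1 ≤ D ∧ Fam D}.Infinite := by
  have hinf := Nat.infinite_setOfPred_prime_and_eq_mod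
    ((ZMod.isUnit_iff_coprime 1 56).2 (by norm_num))
  refine hinf.mono ?_
  rintro q ⟨hq, hqa⟩
  have h56 : q % 56 = 1 % 56 := (ZMod.natCast_eq_natCast_iff' _ _ _).1 hqa
  refine ⟨hq.one_lt.le, hq.squarefree, by omega, fun p hp hpq => ?_⟩
  rw [(Nat.prime_dvd_prime_iff_eq hp hq).1 hpq]
  left
  omega

/-- the products over the subsets of the indices with one index more -/
theorem prod_snoc_iff {n : ℕ} (d : Fin n → ℤ) (D : ℤ) (P : ℤ → Prop) :
    (∀ T : Finset (Fin (n + 1)), P (∏ i ∈ T, (Fin.snoc d D : Fin (n + 1) → ℤ) i)) ↔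
      (∀ T : Finset (Fin n), P (∏ i ∈ T, d i)) ∧ ∀ T : Finset (Fin n), P (D * ∏ i ∈ T, d i) := by
  classical
  have hinj : Function.Injective (Fin.castSucc : Fin n → Fin (n + 1)) := Fin.castSucc_injective n
  have h0 : ∀ T : Finset (Fin n), ∏ i ∈ T.image Fin.castSucc,
      (Fin.snoc d D : Fin (n + 1) → ℤ) i = ∏ i ∈ T, d i := by
    intro T
    rw [Finset.prod_image fun a _ b _ h => hinj h]
    exact Finset.prod_congr rfl fun i _ => Fin.snoc_castSucc _ _ _
  have hl : ∀ T : Finset (Fin n), Fin.last n ∉ T.image Fin.castSucc := by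
    intro T h
    obtain ⟨i, -, hi⟩ := Finset.mem_image.1 h
    exact (Fin.castSucc_lt_last i).ne hi
  have h1 : ∀ T : Finset (Fin n), ∏ i ∈ insert (Fin.last n) (T.image Fin.castSucc),
      (Fin.snoc d D : Fin (n + 1) → ℤ) i = D * ∏ i ∈ T, d i := by
    intro T
    rw [Finset.prod_insert (hl T), h0]
    congr 1
    exact Fin.snoc_last _ _
  constructor
  · intro h
    exact ⟨fun T => by rw [← h0]; exact h _, fun T => by rw [← h1]; exact h _⟩
  · rintro ⟨h2, h3⟩ T
    set T' : Finset (Fin n) := univ.filter fun i => i.castSucc ∈ T with hT'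
    have e : T.erase (Fin.last n) = T'.image Fin.castSucc := by
      ext i
      rw [Finset.mem_erase, Finset.mem_image]
      constructor
      · rintro ⟨g1, g2⟩
        obtain ⟨j, rfl⟩ := Fin.exists_castSucc_eq.2 g1
        exact ⟨j, Finset.mem_filter.2 ⟨Finset.mem_univ _, g2⟩, rfl⟩
      · rintro ⟨j, hj, rfl⟩
        exact ⟨(Fin.castSucc_lt_last j).ne, (Finset.mem_filter.1 hj).2⟩
    by_cases hlT : Fin.last n ∈ T
    · rw [← Finset.insert_erase hlT, e, h1]
      exact h3 T'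
    · rw [← Finset.erase_eq_of_notMem hlT, e, h0]
      exact h2 T'

theorem GO_snoc {n : ℕ} (d : Fin n → ℤ) (M D : ℤ) :
    GO (Fin.snoc d D : Fin (n + 1) → ℤ) M ↔ (GO d M ∧ GO d (M * D)) := by
  unfold GO
  rw [prod_snoc_iff d D (fun z => Gz (M * z))]
  simp only [mul_assoc]

/-- independence of the longer family -/
theorem ind_snoc {n : ℕ} {d : Fin n → ℤ} (hd : Ind d) {D : ℤ}
    (h : ∀ T : Finset (Fin n), ¬ IsSquare (D * ∏ i ∈ T, d i)) :
    Ind (Fin.snoc d D : Fin (n + 1) → ℤ) := by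
  classical
  intro T hT
  have hinj : Function.Injective (Fin.castSucc : Fin n → Fin (n + 1)) := Fin.castSucc_injective n
  set T' : Finset (Fin n) := univ.filter fun i => i.castSucc ∈ T with hT'
  have e : T.erase (Fin.last n) = T'.image Fin.castSucc := by
    ext i
    rw [Finset.mem_erase, Finset.mem_image]
    constructor
    · rintro ⟨g1, g2⟩
      obtain ⟨j, rfl⟩ := Fin.exists_castSucc_eq.2 g1
      exact ⟨j, Finset.mem_filter.2 ⟨Finset.mem_univ _, g2⟩, rfl⟩
    · rintro ⟨j, hj, rfl⟩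
      exact ⟨(Fin.castSucc_lt_last j).ne, (Finset.mem_filter.1 hj).2⟩
  have h0 : ∏ i ∈ T'.image Fin.castSucc, (Fin.snoc d D : Fin (n + 1) → ℤ) i = ∏ i ∈ T', d i := by
    rw [Finset.prod_image fun a _ b _ h => hinj h]
    exact Finset.prod_congr rfl fun i _ => Fin.snoc_castSucc _ _ _
  by_cases hlT : Fin.last n ∈ T
  · rw [← Finset.mul_prod_erase T _ hlT, e, h0]
    have e2 : (Fin.snoc d D : Fin (n + 1) → ℤ) (Fin.last n) = D := Fin.snoc_last _ _
    rw [e2]
    exact h T'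
  · rw [← Finset.erase_eq_of_notMem hlT, e, h0]
    refine hd T' ?_
    obtain ⟨i, hi⟩ := hT
    have hne : i ≠ Fin.last n := fun h => hlT (h ▸ hi)
    obtain ⟨j, rfl⟩ := Fin.exists_castSucc_eq.2 hne
    exact ⟨j, Finset.mem_filter.2 ⟨Finset.mem_univ _, hi⟩⟩

/-- a finite set of exceptions does not change the proportion -/
theorem tendsto_exc (A B C : ℕ → Prop) [DecidablePred A] [DecidablePred B] [DecidablePred C]
    (E : Finset ℕ) {c : ℝ} (hinf : {D : ℕ | 1 ≤ D ∧ A D}.Infinite)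
    (hBA : ∀ D, B D → A D) (hCB : ∀ D, C D → B D) (hE : ∀ D, B D → D ∉ E → C D)
    (h : Filter.Tendsto (fun X : ℕ => (((Icc 1 X).filter B).card : ℝ) /
      (((Icc 1 X).filter A).card : ℝ)) Filter.atTop (nhds c)) :
    Filter.Tendsto (fun X : ℕ => (((Icc 1 X).filter C).card : ℝ) /
      (((Icc 1 X).filter A).card : ℝ)) Filter.atTop (nhds c) := by
  have hA : Filter.Tendsto (fun X : ℕ => (((Icc 1 X).filter A).card : ℝ)) Filter.atTop
      Filter.atTop := by
    refine tendsto_natCast_atTop_atTop.comp ?_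
    refine Filter.tendsto_atTop_atTop.2 fun b => ?_
    obtain ⟨s, hs, hsc⟩ := hinf.exists_subset_card_eq b
    refine ⟨s.sup id, fun X hX => ?_⟩
    rw [← hsc]
    refine Finset.card_le_card fun D hD => ?_
    have h1 := hs hD
    exact Finset.mem_filter.2 ⟨Finset.mem_Icc.2 ⟨h1.1, (Finset.le_sup (f := id) hD).trans hX⟩, h1.2⟩
  have h2 : Filter.Tendsto (fun X : ℕ => (E.card : ℝ) / (((Icc 1 X).filter A).card : ℝ))
      Filter.atTop (nhds 0) := hA.const_div_atTop _
  refine tendsto_of_tendsto_of_tendsto_of_le_of_le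
    (by simpa using h.sub h2) h (fun X => ?_) (fun X => ?_)
  · have h3 : ((Icc 1 X).filter B).card ≤ ((Icc 1 X).filter C).card + E.card := by
      refine (Finset.card_le_card (t := (Icc 1 X).filter C ∪ E) fun D hD => ?_).trans
        (Finset.card_union_le _ _)
      rw [Finset.mem_union, Finset.mem_filter]
      obtain ⟨g1, g2⟩ := Finset.mem_filter.1 hD
      by_cases hDE : D ∈ E
      · exact Or.inr hDE
      · exact Or.inl ⟨g1, hE D g2 hDE⟩
    have h4 : (((Icc 1 X).filter B).card : ℝ) ≤ ((Icc 1 X).filter C).card + E.card := by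
      exact_mod_cast h3
    show _ / _ - _ / _ ≤ _ / _
    rw [← sub_div]
    apply div_le_div_of_nonneg_right _ (Nat.cast_nonneg _)
    linarith
  · show _ / _ ≤ _ / _
    apply div_le_div_of_nonneg_right _ (Nat.cast_nonneg _)
    refine Nat.cast_le.2 (Finset.card_le_card fun D hD => ?_)
    obtain ⟨g1, g2⟩ := Finset.mem_filter.1 hD
    exact Finset.mem_filter.2 ⟨g1, hCB D g2⟩

open Classical in
/-- **the proportion of the quadratic extensions of a good field** -/
theorem prop_ext {n : ℕ} {d : Fin n → ℤ} (hd : Ind d) (ha : ∀ i, Cz (d i))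
    {M : ℤ} (hN : Cz M) (hM : GO d M) :
    Filter.Tendsto (fun X : ℕ =>
      (((Icc 1 X).filter fun D : ℕ => Fam D ∧
        (Ind (Fin.snoc d (D : ℤ) : Fin (n + 1) → ℤ) ∧
          GO (Fin.snoc d (D : ℤ) : Fin (n + 1) → ℤ) M)).card : ℝ) /
      (((Icc 1 X).filter fun D : ℕ => Fam D).card : ℝ))
      Filter.atTop (nhds (c2 ^ 2 ^ n)) := by
  obtain ⟨U, hinj, hU⟩ := exists_U hd ha Cz_one
  refine tendsto_exc (fun D : ℕ => Fam D) (fun D : ℕ => Fam D ∧ GO d (M * D))
    (fun D : ℕ => Fam D ∧ (Ind (Fin.snoc d (D : ℤ) : Fin (n + 1) → ℤ) ∧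
          GO (Fin.snoc d (D : ℤ) : Fin (n + 1) → ℤ) M))
    (univ.image fun T => DD (U T)) fam_infinite
    (fun D h => h.1) (fun D h => ⟨h.1, ((GO_snoc d M _).1 h.2.2).2⟩) (fun D h hDE => ?_)
    (prop_field hd ha hN)
  refine ⟨h.1, ind_snoc hd fun T hsq => hDE ?_, (GO_snoc d M _).2 ⟨hM, h.2⟩⟩
  obtain ⟨hT, k, hk, hk2⟩ := hU T
  obtain ⟨w, hw⟩ := hsq
  rw [one_mul] at hk2
  rw [hk2] at hw
  have hD0 : (D : ℤ) ≠ 0 := by exact_mod_cast h.1.1.ne_zero
  have hw0 : w ≠ 0 := by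
    rintro rfl
    rw [mul_zero] at hw
    exact mul_ne_zero hD0 (mul_ne_zero (DD_ne hT) (pow_ne_zero 2 hk)) hw
  have h1 : D = DD (U T) := by
    refine sqf_unique h.1.1 hT.sqf (mul_ne_zero (mul_ne_zero (DD_ne hT) hk) hk)
      (mul_ne_zero hw0 hk) ?_
    linear_combination ((DD (U T) : ℤ) * k ^ 2) * hw
  exact Finset.mem_image.2 ⟨T, Finset.mem_univ _, h1.symm⟩

end Pool.Agent.Q6.XM
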