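import Pool.Agent.Q6.XK.Ana
import Pool.Agent.Y73.QMQ1

/-!
# Twists of `X_0(49)` over number fields: the Euler factors at the places of good reduction
-/

set_option autoImplicit false

namespace Pool.Agent.Q6.XM

open NumberField IsDedekindDomain
open Pool.Agent.Y698 Pool.Agent.Y698.SG
open Pool.Agent.H921R2.TatePole

/-- the roots of `1 - a X + q X²`, if `a² ≤ 4 q` -/
lemma root_norm {a q : ℝ} (ha : a ^ 2 ≤ 4 * q) {X : ℂ} (h : 1 - a * X + q * X ^ 2 = 0) :
    q * Complex.normSq X = 1 := by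
  have hre := congrArg Complex.re h
  have him := congrArg Complex.im h
  simp only [Complex.add_re, Complex.sub_re, Complex.one_re, Complex.mul_re, Complex.ofReal_re,
    Complex.ofReal_im, zero_mul, sub_zero, pow_two, Complex.mul_im, Complex.add_im, Complex.sub_im,
    Complex.one_im, add_zero, Complex.zero_re, Complex.zero_im, zero_sub] at hre him
  rw [Complex.normSq_apply]
  have h1 : X.im * (2 * q * X.re - a) = 0 := by linarith
  rcases mul_eq_zero.1 h1 with h2 | h2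
  · rw [h2] at hre ⊢
    have h3 : a * X.re = 1 + q * X.re ^ 2 := by linarith
    have h4 : (1 + q * X.re ^ 2) ^ 2 ≤ 4 * q * X.re ^ 2 := by
      rw [← h3, mul_pow]
      exact mul_le_mul_of_nonneg_right ha (sq_nonneg _)
    have h5 : (1 - q * X.re ^ 2) ^ 2 ≤ 0 := by nlinarith
    have h6 : 1 - q * X.re ^ 2 = 0 := by
      have := sq_nonneg (1 - q * X.re ^ 2)
      exact pow_eq_zero_iff (two_ne_zero) |>.1 (le_antisymm h5 this)
    linarith
  · have h3 : a = 2 * q * X.re := by linarith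
    rw [h3] at hre
    linarith

/-- the Euler factor does not vanish for `Re s > 1/2` -/
lemma fac_ne {a : ℤ} {N : ℕ} (hN : 1 < N) (ha : (a : ℝ) ^ 2 ≤ 4 * N) {s : ℂ} (hs : 1 / 2 < s.re) :
    1 - (a : ℂ) * (N : ℂ) ^ (-s) + (N : ℂ) ^ (1 - 2 * s) ≠ 0 := by
  intro h
  have hN0 : (N : ℂ) ≠ 0 := by exact_mod_cast (by omega : N ≠ 0)
  have e1 : (N : ℂ) ^ (1 - 2 * s) = N * ((N : ℂ) ^ (-s)) ^ 2 := by
    rw [pow_two, sub_eq_add_neg, Complex.cpow_add _ _ hN0, Complex.cpow_one,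
      ← Complex.cpow_add _ _ hN0]
    congr 2
    ring
  rw [e1] at h
  have h1 := root_norm (a := (a : ℝ)) (q := (N : ℝ)) ha (X := (N : ℂ) ^ (-s)) (by
    push_cast
    exact h)
  have hNr : (1 : ℝ) < N := by exact_mod_cast hN
  have h2 : ‖(N : ℂ) ^ (-s)‖ = (N : ℝ) ^ (-s.re) := by
    rw [Complex.norm_natCast_cpow_of_pos (by omega), Complex.neg_re]
  rw [Complex.normSq_eq_norm_sq, h2, ← Real.rpow_natCast, ← Real.rpow_mul (by linarith)] at h1
  have h3 : (N : ℝ) * (N : ℝ) ^ (-s.re * (2 : ℕ)) = (N : ℝ) ^ (1 + -s.re * (2 : ℕ)) := by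
    rw [Real.rpow_add (by linarith), Real.rpow_one]
  rw [h3] at h1
  have h4 : (N : ℝ) ^ (1 + -s.re * (2 : ℕ)) < 1 := by
    apply Real.rpow_lt_one_of_one_lt_of_neg hNr
    push_cast
    linarith
  linarith

/-- Hasse's bound in characteristic two -/
lemma bound_two (k : Type) [Field k] [Finite k] {f : ℕ} (hf : f ≠ 0) (hk : Nat.card k = 2 ^ f)
    {S : Finset ℕ} (hS : ∀ q ∈ S, Gp q) {j : ℕ} (hj : ∏ q ∈ S, q = 1 + 4 * j) :
    (((Nat.card k : ℤ) - Nat.card (AP (EX k (j : k))) : ℤ) : ℝ) ^ 2 ≤ 4 * Nat.card k := by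
  have h2S : 2 ∉ S := by
    intro h
    have := (hS 2 h).m4
    omega
  have h := trace_tw k (p := 2) (f := f) Nat.prime_two (by norm_num) hf hk hS h2S hj
  set α : ℂ := ⟨1 / 2, √7 / 2⟩ with hα
  set β : ℂ := ⟨1 / 2, -(√7 / 2)⟩ with hβ
  have hs7 : √7 * √7 = 7 := Real.mul_self_sqrt (by norm_num)
  have h1 : α + β = bc 2 := by
    rw [bc_two]
    apply Complex.ext
    · simp [hα, hβ]; norm_num
    · simp [hα, hβ]
  have h2 : α * β = ec 2 := by
    unfold ec
    rw [if_neg (by norm_num)]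
    apply Complex.ext
    · simp only [hα, hβ, Complex.mul_re]
      norm_num
      linarith
    · simp only [hα, hβ, Complex.mul_im]
      norm_num
      ring
  rw [W165.CE.pw_eq h1 h2 f] at h
  have hn : ‖((∏ q ∈ S, qch q (2 : ℕ)) : ℂ)‖ ≤ 1 := by
    rw [norm_prod]
    refine Finset.prod_le_one (fun _ _ => norm_nonneg _) fun q _ => ?_
    unfold qch
    have h3 : jacobiSym ((2 : ℕ) : ℤ) q = 0 ∨ jacobiSym ((2 : ℕ) : ℤ) q = 1 ∨
        jacobiSym ((2 : ℕ) : ℤ) q = -1 := by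
      by_cases h0 : jacobiSym ((2 : ℕ) : ℤ) q = 0
      · exact Or.inl h0
      · right
        have h4 := jacobiSym.trichotomy ((2 : ℕ) : ℤ) q
        tauto
    rcases h3 with h3 | h3 | h3 <;> rw [h3] <;> norm_num
  have hna : ‖α‖ ^ 2 = 2 := by
    rw [← Complex.normSq_eq_norm_sq, Complex.normSq_apply]
    simp only [hα]
    linarith
  have hnb : ‖β‖ ^ 2 = 2 := by
    rw [← Complex.normSq_eq_norm_sq, Complex.normSq_apply]
    simp only [hβ]
    linarith
  have h3 : ‖((((Nat.card k : ℤ) - Nat.card (AP (EX k (j : k))) : ℤ)) : ℂ)‖ ≤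
      ‖α‖ ^ f + ‖β‖ ^ f := by
    rw [h, norm_mul, norm_pow]
    calc ‖((∏ q ∈ S, qch q (2 : ℕ)) : ℂ)‖ ^ f * ‖α ^ f + β ^ f‖ ≤ 1 * ‖α ^ f + β ^ f‖ :=
          mul_le_mul_of_nonneg_right (pow_le_one₀ (norm_nonneg _) hn) (norm_nonneg _)
      _ ≤ ‖α ^ f‖ + ‖β ^ f‖ := by rw [one_mul]; exact norm_add_le _ _
      _ = ‖α‖ ^ f + ‖β‖ ^ f := by rw [norm_pow, norm_pow]
  rw [Complex.norm_intCast] at h3
  have h4 : ‖α‖ = ‖β‖ := by
    have := hna.trans hnb.symm
    exact (pow_left_inj₀ (norm_nonneg _) (norm_nonneg _) two_ne_zero).1 this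
  rw [h4] at h3
  have h5 : |((((Nat.card k : ℤ) - Nat.card (AP (EX k (j : k))) : ℤ)) : ℝ)| ^ 2 ≤
      (‖β‖ ^ f + ‖β‖ ^ f) ^ 2 := pow_le_pow_left₀ (abs_nonneg _) h3 2
  rw [sq_abs] at h5
  have h6 : (‖β‖ ^ f + ‖β‖ ^ f) ^ 2 = 4 * (‖β‖ ^ 2) ^ f := by
    rw [← pow_mul, mul_comm 2 f, pow_mul]
    ring
  rw [h6, hnb] at h5
  rw [hk] at h5 ⊢
  push_cast at h5 ⊢
  exact h5

/-- Hasse's bound -/
lemma bound_all (k : Type) [Field k] [Finite k] {p f : ℕ} (hp : p.Prime) (hf : f ≠ 0)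
    (hk : Nat.card k = p ^ f) {S : Finset ℕ} (hS : ∀ q ∈ S, Gp q) {j : ℕ}
    (hj : ∏ q ∈ S, q = 1 + 4 * j) :
    (((Nat.card k : ℤ) - Nat.card (AP (EX k (j : k))) : ℤ) : ℝ) ^ 2 ≤ 4 * Nat.card k := by
  classical
  by_cases hp2 : p = 2
  · subst hp2
    exact bound_two k hf hk hS hj
  · letI : Fintype k := Fintype.ofFinite k
    have hk' : Fintype.card k = p ^ f := by rw [← Nat.card_eq_fintype_card, hk]
    have h2 : (2 : k) ≠ 0 := by
      intro h0
      have h3 : ringChar k = p := by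
        apply CharP.ringChar_of_prime_eq_zero hp
        have h1 : ((Fintype.card k : ℕ) : k) = 0 := Nat.cast_card_eq_zero k
        rw [hk'] at h1
        push_cast at h1
        exact (pow_eq_zero_iff hf).1 h1
      have h4 : ((2 : ℕ) : k) = 0 := by exact_mod_cast h0
      have h5 := CharP.ringChar_of_prime_eq_zero Nat.prime_two h4
      exact hp2 (h3.symm.trans h5)
    have hr : ringChar k ≠ 2 := by
      intro h
      apply h2
      have := ringChar.Nat.cast_ringChar (R := k)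
      rw [h] at this
      exact_mod_cast this
    have hcast : ((j : ℕ) : k) = ((j : ℤ) : k) := (Int.cast_natCast j).symm
    rw [hcast, card_AP_EX k h2 (j : ℤ)]
    have h3 := W165.CE.hasse hr (((-35 * (1 + 4 * (j : ℤ)) ^ 2 : ℤ)) : k)
      (((-98 * (1 + 4 * (j : ℤ)) ^ 3 : ℤ)) : k)
    have h4 := pow_le_pow_left₀ (abs_nonneg _) h3 2
    rw [sq_abs, mul_pow, Real.sq_sqrt (Nat.cast_nonneg _)] at h4
    rw [Nat.card_eq_fintype_card (α := k)]
    push_cast at h4 ⊢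
    linarith

end Pool.Agent.Q6.XM
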