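import Pool.Agent.Q6.XM.Mq
import Pool.Agent.Q6.XM.Loc

/-!
# Twists of `X_0(49)` over multiquadratic fields: the complete Euler product
-/

set_option autoImplicit false

namespace Pool.Agent.Q6.XM

open NumberField IsDedekindDomain
open Pool.Agent.Y698 Pool.Agent.Y698.SG
open Pool.Agent.Q6.XK
open Pool.Agent.H921R2.TatePole
open Pool.Agent.Y19.QT (Indep EK FinGenK rkK qv av IsLFunK IsLFun EQ fg_gen rank_gen disc_ne)
open W165.CE (finite_bad intCast_mem_iff)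

/-- the twist by `D` -/
def twZ (D : ℕ) : WeierstrassCurve ℤ := ⟨1, -((3 * D + 1) / 4), 0, -2 * D ^ 2, -D ^ 3⟩

lemma twZ_map {D j : ℕ} (hj : D = 1 + 4 * j) (K : Type) [Field K] :
    (twZ D).map (Int.castRingHom K) = EX K (j : K) := by
  have h1 : (3 * (D : ℤ) + 1) / 4 = 1 + 3 * j := by
    rw [hj]
    push_cast
    omega
  unfold twZ EX
  rw [h1, hj]
  ext
  · simp
  · simp
  · simp
  · simp
  · simp

section
variable {K : Type} [Field K] [NumberField K]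

/-- `a_v = N v + 1 - #W(k_v)` -/
noncomputable def aw (W : WeierstrassCurve ℤ) (v : HeightOneSpectrum (𝓞 K)) : ℤ :=
  (Ideal.absNorm v.asIdeal : ℤ) - Nat.card {P : (𝓞 K ⧸ v.asIdeal) × (𝓞 K ⧸ v.asIdeal) //
    (W.map (Int.castRingHom (𝓞 K ⧸ v.asIdeal))).toAffine.Equation P.1 P.2}

/-- the Euler factor at a place of good reduction -/
noncomputable def fw (W : WeierstrassCurve ℤ) (s : ℂ) (v : HeightOneSpectrum (𝓞 K)) : ℂ :=
  (1 - (aw W v : ℂ) * (Ideal.absNorm v.asIdeal : ℂ) ^ (-s) +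
    (Ideal.absNorm v.asIdeal : ℂ) ^ (1 - 2 * s))⁻¹

lemma nm_gt (v : HeightOneSpectrum (𝓞 K)) : 1 < Ideal.absNorm v.asIdeal := two_le_nm v

/-- the numbers of points modulo `v` -/
lemma aw_eq {D j : ℕ} (hj : D = 1 + 4 * j) (v : HeightOneSpectrum (𝓞 K)) (k : Type) [Field k]
    [Finite k] (e : (𝓞 K ⧸ v.asIdeal) ≃+* k) :
    aw (twZ D) v = (Nat.card k : ℤ) - Nat.card (AP (EX k (j : k))) := by
  unfold aw
  have h1 : Nat.card k = Ideal.absNorm v.asIdeal := by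
    rw [Ideal.absNorm_apply, Submodule.cardQuot_apply]
    exact (Nat.card_congr e.toEquiv).symm
  rw [h1]
  congr 2
  refine Nat.card_congr (Equiv.subtypeEquiv (e.toEquiv.prodCongr e.toEquiv) fun P => ?_)
  have h2 : (twZ D).map (Int.castRingHom k) = EX k (j : k) := twZ_map hj k
  rw [← h2]
  simp only [WeierstrassCurve.Affine.equation_iff]
  simp only [WeierstrassCurve.map, Equiv.prodCongr_apply, Prod.map, RingEquiv.toEquiv_eq_coe,
    EquivLike.coe_coe, eq_intCast]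
  rw [← e.injective.eq_iff]
  simp only [map_add, map_mul, map_pow, map_intCast]

/-- Hasse's bound -/
lemma aw_bound {D : ℕ} (hD : Base D) (v : HeightOneSpectrum (𝓞 K)) :
    ((aw (twZ D) v : ℤ) : ℝ) ^ 2 ≤ 4 * (Ideal.absNorm v.asIdeal : ℕ) := by
  have hmax : v.asIdeal.IsMaximal := v.isPrime.isMaximal v.ne_bot
  letI : Field (𝓞 K ⧸ v.asIdeal) := Ideal.Quotient.field v.asIdeal
  have hfin : Finite (𝓞 K ⧸ v.asIdeal) := Ideal.finiteQuotientOfFreeOfNeBot v.asIdeal v.ne_bot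
  have hS : ∀ q ∈ QQ D ∪ PP D, Gp q := by
    intro q hq
    rcases Finset.mem_union.1 hq with h | h
    · exact Gp.of_inq (hQQ hD q h)
    · exact Gp.of_spl (hPP hD q h)
  have hm4 := prod_mod_four (S := QQ D ∪ PP D) fun q hq => (hS q hq).m4
  rw [prod_QP hD] at hm4
  obtain ⟨j, hj⟩ : ∃ j, D = 1 + 4 * j := ⟨D / 4, by omega⟩
  obtain ⟨h1, h2, -⟩ := nm_eq v
  have hk : Nat.card (𝓞 K ⧸ v.asIdeal) = (below v : ℕ) ^ deg v := by
    rw [← h1]
    unfold nm
    rw [Ideal.absNorm_apply, Submodule.cardQuot_apply]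
  have h3 := bound_all (𝓞 K ⧸ v.asIdeal) (below v).2 h2.ne' hk hS (j := j)
    (by rw [prod_QP hD]; exact hj)
  have h4 := aw_eq hj v (𝓞 K ⧸ v.asIdeal) (RingEquiv.refl _)
  rw [h4]
  have h5 : Ideal.absNorm v.asIdeal = Nat.card (𝓞 K ⧸ v.asIdeal) := by
    rw [Ideal.absNorm_apply, Submodule.cardQuot_apply]
  rw [h5]
  exact h3

/-- the comparison with the short equation -/
lemma aw_short {D : ℕ} (hD : Base D) (v : HeightOneSpectrum (𝓞 K))
    (hv : ¬ ((below v : ℕ) : ℤ) ∣ 2) :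
    aw (twZ D) v = av K (-35 * (D : ℤ) ^ 2) (-98 * (D : ℤ) ^ 3) v := by
  have hmax : v.asIdeal.IsMaximal := v.isPrime.isMaximal v.ne_bot
  letI : Field (𝓞 K ⧸ v.asIdeal) := Ideal.Quotient.field v.asIdeal
  have hfin : Finite (𝓞 K ⧸ v.asIdeal) := Ideal.finiteQuotientOfFreeOfNeBot v.asIdeal v.ne_bot
  have hS : ∀ q ∈ QQ D ∪ PP D, Gp q := by
    intro q hq
    rcases Finset.mem_union.1 hq with h | h
    · exact Gp.of_inq (hQQ hD q h)
    · exact Gp.of_spl (hPP hD q h)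
  have hm4 := prod_mod_four (S := QQ D ∪ PP D) fun q hq => (hS q hq).m4
  rw [prod_QP hD] at hm4
  obtain ⟨j, hj⟩ : ∃ j, D = 1 + 4 * j := ⟨D / 4, by omega⟩
  have h2 : (2 : 𝓞 K ⧸ v.asIdeal) ≠ 0 := by
    intro h0
    apply hv
    rw [← intCast_mem_iff v 2]
    have h3 : Ideal.Quotient.mk v.asIdeal ((2 : ℤ) : 𝓞 K) = 0 := by
      rw [map_intCast]
      exact_mod_cast h0
    exact Ideal.Quotient.eq_zero_iff_mem.1 h3
  have h4 := aw_eq hj v (𝓞 K ⧸ v.asIdeal) (RingEquiv.refl _)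
  rw [h4]
  have hcast : ((j : ℕ) : 𝓞 K ⧸ v.asIdeal) = ((j : ℤ) : 𝓞 K ⧸ v.asIdeal) := (Int.cast_natCast j).symm
  rw [hcast, card_AP_EX (𝓞 K ⧸ v.asIdeal) h2 (j : ℤ)]
  have hjz : (D : ℤ) = 1 + 4 * (j : ℤ) := by rw [hj]; push_cast; ring
  unfold av qv
  rw [hjz]

end

section
variable {n : ℕ} {d : Fin n → ℤ} {M : ℕ}

open Classical in
/-- the complete Euler factor of `E_M` -/
noncomputable def fM {K : Type} [Field K] [NumberField K] (M : ℕ) (s : ℂ)
    (v : HeightOneSpectrum (𝓞 K)) : ℂ :=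
  if ((7 * M : ℤ) : 𝓞 K) ∈ v.asIdeal then 1 else fw (twZ M) s v

lemma fM_ne {K : Type} [Field K] [NumberField K] (hM : Base M) {s : ℂ} (hs : 1 / 2 < s.re)
    (v : HeightOneSpectrum (𝓞 K)) : fM M s v ≠ 0 := by
  unfold fM
  split_ifs
  · exact one_ne_zero
  · unfold fw
    exact inv_ne_zero (fac_ne (nm_gt v) (aw_bound hM v) hs)

lemma fM_an {K : Type} [Field K] [NumberField K] (hM : Base M) {s : ℂ} (hs : 1 / 2 < s.re)
    (v : HeightOneSpectrum (𝓞 K)) : AnalyticAt ℂ (fun z => fM M z v) s := by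
  unfold fM
  split_ifs
  · exact analyticAt_const
  · unfold fw
    refine AnalyticAt.inv ?_ (fac_ne (nm_gt v) (aw_bound hM v) hs)
    have hN0 : (Ideal.absNorm v.asIdeal : ℂ) ≠ 0 := by
      have := nm_gt v
      exact_mod_cast (by omega : Ideal.absNorm v.asIdeal ≠ 0)
    have h1 : Differentiable ℂ fun z : ℂ => (1 - (aw (twZ M) v : ℂ) *
        (Ideal.absNorm v.asIdeal : ℂ) ^ (-z) + (Ideal.absNorm v.asIdeal : ℂ) ^ (1 - 2 * z)) := by
      have h2 : Differentiable ℂ fun z : ℂ => (Ideal.absNorm v.asIdeal : ℂ) ^ (-z) := fun z =>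
        (differentiableAt_id.neg).const_cpow (Or.inl hN0)
      have h3 : Differentiable ℂ fun z : ℂ => (Ideal.absNorm v.asIdeal : ℂ) ^ (1 - 2 * z) := fun z =>
        ((differentiableAt_const 1).sub (differentiableAt_id.const_mul 2)).const_cpow (Or.inl hN0)
      exact ((differentiable_const _).sub (h2.const_mul _)).add h3
    exact h1.analyticAt s

theorem analyticAt_prod {ι : Type*} (S : Finset ι) (f : ι → ℂ → ℂ) {s : ℂ}
    (hf : ∀ i ∈ S, AnalyticAt ℂ (f i) s) : AnalyticAt ℂ (fun z => ∏ i ∈ S, f i z) s := by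
  classical
  induction S using Finset.induction_on with
  | empty => simpa using analyticAt_const
  | insert a S ha ih =>
    simp only [Finset.prod_insert ha]
    exact (hf a (Finset.mem_insert_self a S)).mul
      (ih fun i hi => hf i (Finset.mem_insert_of_mem hi))

/-- **the complete Euler product** -/
theorem field_full (hM : Base M) (hd : Ind d) (h : GO d (M : ℤ)) (K : Type) [Field K]
    [NumberField K] (x : Fin n → K) (hx : ∀ i, x i ^ 2 = (d i : K))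
    (hK : IntermediateField.adjoin ℚ (Set.range x) = ⊤) :
    ∃ L : ℂ → ℂ, (∀ s : ℂ, 1 / 2 < s.re → AnalyticAt ℂ L s) ∧
      (∀ s : ℂ, 3 / 2 < s.re → HasProd (fM (K := K) M s) (L s)) ∧ L 1 ≠ 0 := by
  classical
  obtain ⟨⟨F, hF, hF1⟩, -⟩ := field_inc hd h K x hx hK
  have hM0 : (M : ℤ) ≠ 0 := by exact_mod_cast hM.1.ne_zero
  set c : ℤ := 2 * (4 * (-35 * (M : ℤ) ^ 2) ^ 3 + 27 * (-98 * (M : ℤ) ^ 3) ^ 2) * ∏ i, d i with hc
  have hc0 : c ≠ 0 := mul_ne_zero (mul_ne_zero two_ne_zero (disc0 hM0))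
    (Finset.prod_ne_zero_iff.2 fun i _ => hd.ne i)
  have hfin := finite_bad (K := K) c hc0
  set B := hfin.toFinset with hB
  have hmemB : ∀ v : HeightOneSpectrum (𝓞 K), v ∈ B ↔ ((c : ℤ) : 𝓞 K) ∈ v.asIdeal := by
    intro v
    rw [hB, Set.Finite.mem_toFinset, Set.mem_ofPred_eq, intCast_mem_iff]
  refine ⟨fun s => F s * ∏ v ∈ B, fM M s v, fun s hs => ?_, fun s hs => ?_, ?_⟩
  · exact (hF.1.analyticAt s).mul (analyticAt_prod B (fun v z => fM M z v)
      fun v _ => fM_an hM hs v)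
  · have h1 := hF.2 s hs
    have h2 : HasProd (fun v : HeightOneSpectrum (𝓞 K) => if v ∈ B then fM M s v else 1)
        (∏ v ∈ B, (if v ∈ B then fM M s v else 1)) :=
      hasProd_prod_of_ne_finset_one fun v hv => if_neg hv
    have h3 : ∏ v ∈ B, (if v ∈ B then fM M s v else 1) = ∏ v ∈ B, fM M s v :=
      Finset.prod_congr rfl fun v hv => if_pos hv
    rw [h3] at h2
    have h4 := h1.mul h2
    refine h4.congr_fun ?_
    intro v
    by_cases hv : v ∈ B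
    · rw [if_pos ((hmemB v).1 hv), if_pos hv, one_mul]
    · have hv' : ¬ ((c : ℤ) : 𝓞 K) ∈ v.asIdeal := fun h => hv ((hmemB v).2 h)
      rw [if_neg hv', if_neg hv, mul_one]
      have h7 : ¬ ((7 * M : ℤ) : 𝓞 K) ∈ v.asIdeal := by
        intro h
        apply hv'
        have e : c = (7 * (M : ℤ)) * (2 * 12544 * (M : ℤ) ^ 5 * ∏ i, d i) := by
          rw [hc]
          ring
        rw [e, Int.cast_mul]
        refine Ideal.mul_mem_right _ _ ?_
        exact_mod_cast h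
      have h2 : ¬ ((below v : ℕ) : ℤ) ∣ 2 := by
        intro h
        apply hv'
        rw [intCast_mem_iff, hc, mul_assoc]
        exact h.mul_right _
      unfold fM fw
      rw [if_neg h7, aw_short hM v h2, ← Pool.Agent.Y73.QMQ1.qv_eq]
  · refine mul_ne_zero hF1 (Finset.prod_ne_zero_iff.2 fun v _ => fM_ne hM ?_ v)
    norm_num

end

/-- the two equations -/
theorem vr_short (K : Type) [Field K] {D j : ℕ} (h2 : (2 : K) ≠ 0) (hj : D = 1 + 4 * j) :
    Pool.Agent.Y700.VR (⟨0, 0, 0, ((-35 * (D : ℤ) ^ 2 : ℤ) : K), ((-98 * (D : ℤ) ^ 3 : ℤ) : K)⟩ :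
      WeierstrassCurve K) (EX K (j : K)) 2 (-(D : K)) 1 0 := by
  have hD : (D : K) = 1 + 4 * (j : K) := by rw [hj]; push_cast; ring
  refine ⟨h2, ?_, ?_, ?_, ?_, ?_⟩
  · show (2 : K) * 1 = 0 + 2 * 1
    ring
  · show (2 : K) ^ 2 * (-(1 + 3 * (j : K))) = 0 - 1 * 0 + 3 * (-(D : K)) - 1 ^ 2
    rw [hD]
    ring
  · show (2 : K) ^ 3 * 0 = 0 + -(D : K) * 0 + 2 * 0
    ring
  · show (2 : K) ^ 4 * (-2 * (1 + 4 * (j : K)) ^ 2) = ((-35 * (D : ℤ) ^ 2 : ℤ) : K) - 1 * 0 +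
      2 * (-(D : K)) * 0 - (0 + -(D : K) * 1) * 0 + 3 * (-(D : K)) ^ 2 - 2 * 1 * 0
    push_cast
    rw [hD]
    ring
  · show (2 : K) ^ 6 * (-(1 + 4 * (j : K)) ^ 3) = ((-98 * (D : ℤ) ^ 3 : ℤ) : K) +
      (-(D : K)) * ((-35 * (D : ℤ) ^ 2 : ℤ) : K) + (-(D : K)) ^ 2 * 0 + (-(D : K)) ^ 3 - 0 * 0 -
      0 ^ 2 - (-(D : K)) * 0 * 0
    push_cast
    rw [hD]
    ring

theorem base_mod {D : ℕ} (hD : Base D) : ∃ j, D = 1 + 4 * j := by
  have hS : ∀ q ∈ QQ D ∪ PP D, q % 4 = 1 := by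
    intro q hq
    rcases Finset.mem_union.1 hq with h | h
    · exact (hQQ hD q h).m4
    · exact (hPP hD q h).m4
  have hm4 := prod_mod_four (S := QQ D ∪ PP D) hS
  rw [prod_QP hD] at hm4
  exact ⟨D / 4, by omega⟩

theorem EX_ne (K : Type) [Field K] [CharZero K] (j : ℕ) : (EX K (j : K)).Δ ≠ 0 := by
  rw [EX_Δ]
  refine mul_ne_zero (by norm_num) (pow_ne_zero _ ?_)
  have : ((1 + 4 * j : ℕ) : K) ≠ 0 := by
    rw [Nat.cast_ne_zero]
    omega
  push_cast at this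
  exact this

theorem finite_tw {K : Type} [Field K] [CharZero K] {D : ℕ} (hD : Base D)
    (h : Finite (EK K (-35 * (D : ℤ) ^ 2) (-98 * (D : ℤ) ^ 3))) :
    Finite ((twZ D).map (Int.castRingHom K)).toAffine.Point := by
  classical
  obtain ⟨j, hj⟩ := base_mod hD
  rw [twZ_map hj]
  exact Finite.of_equiv _ ((vr_short K two_ne_zero hj).equiv (EX_ne K j)).symm.toEquiv

end Pool.Agent.Q6.XM
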