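import Pool.Agent.Q6.XM.Fld
import Pool.Agent.Q6.XK.Ana
import Pool.Agent.Y73.QMQ1
import Pool.Agent.Y914.QMQ4
import Pool.Agent.Y19.QT.MF

/-!
# Twists of `X_0(49)` over multiquadratic fields: rank and order zero
-/

set_option autoImplicit false

namespace Pool.Agent.Q6.XM

open NumberField IsDedekindDomain
open Pool.Agent.Y698 Pool.Agent.Y698.SG
open Pool.Agent.Q6.XK
open Pool.Agent.Y19.QT (Indep EK FinGenK rkK qv av IsLFunK IsLFun EQ fg_gen rank_gen disc_ne)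
open Pool.Agent.Y700 (VR)
open Pool.Agent.TH841.SH.D (Sha)

/-- the twist by `D`: order zero -/
theorem order_zero {D : ℕ} (hD : Base D) (hf : ∀ d, ¬ Obs D d) :
    ∃ F : ℂ → ℂ, IsLFun (-35 * (D : ℤ) ^ 2) (-98 * (D : ℤ) ^ 3) F ∧ analyticOrderAt F 1 = 0 := by
  obtain ⟨F, h1, h2, h3⟩ := ana (hQQ hD) (hPP hD) ((crit hD).2 hf) (D := (D : ℤ))
    (by rw [prod_QP hD])
  refine ⟨F, ⟨h1, fun s hs => ?_⟩, (h1.analyticAt 1).analyticOrderAt_eq_zero.2 h3⟩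
  have h4 := h2 s hs
  convert h4 using 1

/-- scaling -/
theorem vr_sq (D : ℤ) {k : ℤ} (hk : k ≠ 0) : VR (ES (D * k ^ 2)) (ES D) (k : ℚ) 0 0 0 := by
  refine ⟨by exact_mod_cast hk, ?_, ?_, ?_, ?_, ?_⟩
  · show (k : ℚ) * 0 = 0 + 2 * 0
    ring
  · show (k : ℚ) ^ 2 * 0 = 0 - 0 * 0 + 3 * 0 - 0 ^ 2
    ring
  · show (k : ℚ) ^ 3 * 0 = 0 + 0 * 0 + 2 * 0
    ring
  · show (k : ℚ) ^ 4 * ((-35 * D ^ 2 : ℤ) : ℚ) = ((-35 * (D * k ^ 2) ^ 2 : ℤ) : ℚ) - 0 * 0 +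
      2 * 0 * 0 - (0 + 0 * 0) * 0 + 3 * 0 ^ 2 - 2 * 0 * 0
    push_cast
    ring
  · show (k : ℚ) ^ 6 * ((-98 * D ^ 3 : ℤ) : ℚ) = ((-98 * (D * k ^ 2) ^ 3 : ℤ) : ℚ) +
      0 * ((-35 * (D * k ^ 2) ^ 2 : ℤ) : ℚ) + 0 ^ 2 * 0 + 0 ^ 3 - 0 * 0 - 0 ^ 2 - 0 * 0 * 0
    push_cast
    ring

theorem triv_sq {D k : ℤ} (hD : D ≠ 0) (hk : k ≠ 0) : Triv (D * k ^ 2) ↔ Triv D := by
  obtain ⟨h1, h2, -⟩ := Pool.Agent.Z932.Z702.t_TRN _ _ _ _ _ _ (vr_sq D hk) (ES_ne hD)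
  unfold Triv
  exact and_congr h1 h2

/-- the twists by the good numbers -/
theorem gz_all {z : ℤ} (h : Gz z) :
    (∃ F : ℂ → ℂ, IsLFun (-35 * z ^ 2) (-98 * z ^ 3) F ∧ analyticOrderAt F 1 = 0) ∧ Triv z := by
  obtain ⟨D, k, hD, hf, hk, rfl⟩ := h
  have hD0 : (D : ℤ) ≠ 0 := by exact_mod_cast hD.1.ne_zero
  refine ⟨?_, (triv_sq hD0 hk).2 ((triv_crit hD).2 hf)⟩
  obtain ⟨F, hF, hF1⟩ := order_zero hD hf
  obtain ⟨G, hG, hG1⟩ := Pool.Agent.Y914.QMQ4.MQ4 (-35) (-98) (by norm_num) D k hD0 hk F hF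
  exact ⟨G, hG, by rw [hG1 1 (by norm_num), hF1]⟩

theorem gz_ne {z : ℤ} (h : Gz z) : z ≠ 0 := by
  obtain ⟨D, k, hD, hf, hk, rfl⟩ := h
  exact mul_ne_zero (by exact_mod_cast hD.1.ne_zero) (pow_ne_zero 2 hk)

/-- the converse: for the numbers of the class -/
theorem gz_iff {D : ℕ} {k : ℤ} (hD : Base D) (hk : k ≠ 0) :
    Gz (D * k ^ 2) ↔ Triv (D * k ^ 2) := by
  refine ⟨fun h => (gz_all h).2, fun h => ⟨D, k, hD, ?_, hk, rfl⟩⟩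
  have hD0 : (D : ℤ) ≠ 0 := by exact_mod_cast hD.1.ne_zero
  exact (triv_crit hD).1 ((triv_sq hD0 hk).1 h)

theorem Ind.ne {n : ℕ} {d : Fin n → ℤ} (hd : Ind d) (i : Fin n) : d i ≠ 0 := by
  intro h0
  refine hd {i} (Finset.singleton_nonempty i) ?_
  rw [Finset.prod_singleton, h0]
  exact ⟨0, rfl⟩

theorem GO.ne {n : ℕ} {d : Fin n → ℤ} {M : ℤ} (h : GO d M) : M ≠ 0 := by
  have := gz_ne (h ∅)
  rwa [Finset.prod_empty, mul_one] at this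

theorem disc0 {M : ℤ} (hM : M ≠ 0) : 4 * (-35 * M ^ 2) ^ 3 + 27 * (-98 * M ^ 3) ^ 2 ≠ 0 := by
  have e : 4 * (-35 * M ^ 2) ^ 3 + 27 * (-98 * M ^ 3) ^ 2 = 87808 * M ^ 6 := by ring
  rw [e]
  exact mul_ne_zero (by norm_num) (pow_ne_zero 6 hM)

theorem finrank_zero {G : Type} [AddCommGroup G] (h : Finite G) : Module.finrank ℤ G = 0 := by
  have h1 : Module.rank ℤ G = 0 := by
    rw [rank_eq_zero_iff]
    intro x
    have h2 : IsOfFinAddOrder x := isOfFinAddOrder_of_finite x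
    obtain ⟨n, hn, hx⟩ := isOfFinAddOrder_iff_nsmul_eq_zero.1 h2
    exact ⟨n, by exact_mod_cast hn.ne', by exact_mod_cast hx⟩
  rw [Module.finrank, h1, map_zero]

section
variable {n : ℕ} {d : Fin n → ℤ} {M : ℤ}

/-- rank and order zero over a multiquadratic field -/
theorem field_inc (hd : Ind d) (h : GO d M) (K : Type) [Field K] [NumberField K] (x : Fin n → K)
    (hx : ∀ i, x i ^ 2 = (d i : K)) (hK : IntermediateField.adjoin ℚ (Set.range x) = ⊤) :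
    (∃ F : ℂ → ℂ, IsLFunK K (-35 * M ^ 2) (-98 * M ^ 3) (∏ i, d i) F ∧ F 1 ≠ 0) ∧
      Finite (EK K (-35 * M ^ 2) (-98 * M ^ 3)) := by
  classical
  have hM := h.ne
  have hab := disc0 hM
  have e1 : ∀ T : Finset (Fin n), -35 * M ^ 2 * (∏ i ∈ T, d i) ^ 2 =
      -35 * (M * ∏ i ∈ T, d i) ^ 2 := fun T => by ring
  have e2 : ∀ T : Finset (Fin n), -98 * M ^ 3 * (∏ i ∈ T, d i) ^ 3 =
      -98 * (M * ∏ i ∈ T, d i) ^ 3 := fun T => by ring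
  choose G hG hG1 using fun T => (gz_all (h T)).1
  obtain ⟨F, hF, hF1⟩ := Pool.Agent.Y73.QMQ1.MQ1 (-35 * M ^ 2) (-98 * M ^ 3) hab n d hd G
    (fun T => by rw [e1, e2]; exact hG T) K x hx hK
  refine ⟨⟨F, hF, ?_⟩, ?_⟩
  · have h1 := hF1 1 (by norm_num)
    rw [Finset.sum_eq_zero fun T _ => hG1 T] at h1
    exact (hF.1.analyticAt 1).analyticOrderAt_eq_zero.1 h1
  · have hf := fg_gen K hab
    have h1 := rank_gen K d x hx hK hd.ne hab hf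
    have h0 : ∀ T ∈ (Finset.univ : Finset (Finset (Fin n))), Module.finrank ℤ
        (EQ (-35 * M ^ 2 * (∏ i ∈ T, d i) ^ 2) (-98 * M ^ 3 * (∏ i ∈ T, d i) ^ 3)) = 0 := by
      intro T _
      rw [e1, e2]
      exact finrank_zero (gz_all (h T)).2.1
    rw [Finset.sum_eq_zero h0] at h1
    unfold rkK at h1
    unfold FinGenK at hf
    have h2 : Module.finrank ℤ (EK K (-35 * M ^ 2) (-98 * M ^ 3)) = 0 := by
      convert Nat.le_zero.1 h1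
    have hf' : Module.Finite ℤ (EK K (-35 * M ^ 2) (-98 * M ^ 3)) := by
      convert hf
    exact Module.finite_of_fg_torsion _ (Module.finrank_eq_zero_iff_isTorsion.1 h2)

end

end Pool.Agent.Q6.XM
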