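import Pool.Agent.Q6.XM.Fld
import Pool.Agent.Y723.QT.Rf

/-!
# Twists of `X_0(49)` over multiquadratic fields: the 2-primary part of the Tate-Shafarevich group
-/

set_option autoImplicit false

namespace Pool.Agent.Q6.XM

open NumberField IsDedekindDomain
open Pool.Agent.Y698 Pool.Agent.Y698.SG
open Pool.Agent.Q6.XK
open Pool.Agent.Y700 (VR)
open Pool.Agent.Y723.QT (Kl F2)
open Pool.Agent.TH841.NF (EF)
open Pool.Agent.W307.RT (Sh)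

/-- scaling -/
theorem vr_sq' (D : ℤ) {k : ℤ} (hk : k ≠ 0) : VR (ES (D * k ^ 2)) (ES D) (k : ℚ) 0 0 0 := by
  refine ⟨by exact_mod_cast hk, ?_, ?_, ?_, ?_, ?_⟩
  · show (k : ℚ) * 0 = 0 + 2 * 0
    ring
  · show (k : ℚ) ^ 2 * 0 = 0 - 0 * 0 + 3 * 0 - 0 ^ 2
    ring
  · show (k : ℚ) ^ 3 * 0 = 0 + 0 * 0 + 2 * 0
    ring
  · show (k : ℚ) ^ 4 * ((-35 * D ^ 2 : ℤ) : ℚ) = ((-35 * (D * k ^ 2) ^ 2 : ℤ) : ℚ) - 0 * 0 +
      2 * 0 * 0 - (0 + 0 * 0) * 0 + 3 * 0 ^ 2 - 2 * 0 * 0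
    push_cast
    ring
  · show (k : ℚ) ^ 6 * ((-98 * D ^ 3 : ℤ) : ℚ) = ((-98 * (D * k ^ 2) ^ 3 : ℤ) : ℚ) +
      0 * ((-35 * (D * k ^ 2) ^ 2 : ℤ) : ℚ) + 0 ^ 2 * 0 + 0 ^ 3 - 0 * 0 - 0 ^ 2 - 0 * 0 * 0
    push_cast
    ring

theorem gz_sha {z : ℤ} (h : Gz z) :
    z ≠ 0 ∧ ∀ x : Pool.Agent.TH841.SH.D.Sha (ES z), x + x = 0 → x = 0 := by
  obtain ⟨D, k, hD, hf, hk, rfl⟩ := h
  have hD0 : (D : ℤ) ≠ 0 := by exact_mod_cast hD.1.ne_zero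
  refine ⟨mul_ne_zero hD0 (pow_ne_zero 2 hk), ?_⟩
  obtain ⟨-, h2, -⟩ := Pool.Agent.Z932.Z702.t_TRN _ _ _ _ _ _ (vr_sq' D hk) (ES_ne hD0)
  exact h2.2 ((triv_crit hD).2 hf).2

theorem kl_zero {G : Type} [AddCommGroup G] (h : ∀ x : G, x + x = 0 → x = 0) : Kl G 0 := by
  intro k
  induction k with
  | zero => intro x hx; exact hx
  | succ k ih =>
    intro x hx
    apply ih
    apply h
    rw [← two_nsmul, ← mul_nsmul', ← pow_succ']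
    exact hx

/-- **The two-primary part over the field.** -/
theorem sha_field {n : ℕ} {d : Fin n → ℤ} {M : ℤ} (hd : Ind d) (h : GO d M)
    (F : Type) [Field F] [NumberField F] {x : Fin n → F} (hx : ∀ i, x i ^ 2 = (d i : F))
    (hgen : IntermediateField.adjoin ℚ (Set.range x) = ⊤) :
    F2 (Pool.Agent.TH841.NF.D.Sha (EF (-35 * M ^ 2) (-98 * M ^ 3) F)) ∧
      Kl (Pool.Agent.TH841.NF.D.Sha (EF (-35 * M ^ 2) (-98 * M ^ 3) F)) n := by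
  classical
  have hd0 : ∀ i, d i ≠ 0 := by
    intro i h0
    refine hd {i} (Finset.singleton_nonempty i) ?_
    rw [Finset.prod_singleton, h0]
    exact ⟨0, rfl⟩
  have hM0 : M ≠ 0 := by
    have := (gz_sha (h ∅)).1
    rwa [Finset.prod_empty, mul_one] at this
  have h3 : Kl (Pool.Agent.TH841.NF.D.Sha (EF (-35 * M ^ 2) (-98 * M ^ 3) F)) (n + 0) := by
    refine Pool.Agent.Y723.QT.base_kl (r := x) (d := fun i => (d i : ℚ)) (fun i => ?_)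
      (fun i => by exact_mod_cast hd0 i) hgen fun T => ?_
    · rw [hx i, map_intCast]
    · rw [Pool.Agent.TH841.NF.tw_Sh]
      have h4 := (gz_sha (h T)).2
      have e1 : (∏ i ∈ T, d i) ^ 2 * (-35 * M ^ 2) = -35 * (M * ∏ i ∈ T, d i) ^ 2 := by ring
      have e2 : (∏ i ∈ T, d i) ^ 3 * (-98 * M ^ 3) = -98 * (M * ∏ i ∈ T, d i) ^ 3 := by
        ring
      rw [e1, e2]
      exact kl_zero h4
  rw [add_zero] at h3
  have hD : 4 * (-35 * M ^ 2) ^ 3 + 27 * (-98 * M ^ 3) ^ 2 ≠ 0 := by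
    have e : 4 * (-35 * M ^ 2) ^ 3 + 27 * (-98 * M ^ 3) ^ 2 = 87808 * M ^ 6 := by ring
    rw [e]
    exact mul_ne_zero (by norm_num) (pow_ne_zero 6 hM0)
  have he : (7 * M) ^ 3 + (-35 * M ^ 2) * (7 * M) + (-98 * M ^ 3) = 0 := by ring
  exact ⟨(Pool.Agent.Y723.QT.f2_iff (Pool.Agent.Y723.QT.tf_EF (F := F) hD he)).2 ⟨n, h3⟩, h3⟩

end Pool.Agent.Q6.XM
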